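import Mathlib

/-! # Graded nonnegativity of `x_1 ⋯ x_i (1 - x_{i+1}) ⋯ (1 - x_n) 𝔏_α` in the Lascoux basis -/

set_option autoImplicit false
set_option linter.unusedSectionVars false
set_option linter.unusedVariables false

namespace Pool.Agent.Results.MP_ce9680_co.GradedNonneg

noncomputable section

open scoped Classical
open MvPolynomial

/-! ## Definitions -/

/-- The composition `α · s`, with the entries at `j` and `k` interchanged. -/
def swapEntries {n : ℕ} (α : Fin n → ℕ) (j k : Fin n) : Fin n → ℕ := α ∘ Equiv.swap j k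

/-- The polynomial `s f`, with the variables `x_j` and `x_k` interchanged. -/
def swapVars {n : ℕ} (j k : Fin n) (f : MvPolynomial (Fin n) ℤ) : MvPolynomial (Fin n) ℤ :=
  rename (Equiv.swap j k) f

/-- The divided difference `(f - s f) / (x_j - x_k)`. -/
def divDiff {n : ℕ} (j k : Fin n) (f : MvPolynomial (Fin n) ℤ) : MvPolynomial (Fin n) ℤ :=
  if h : ∃ g : MvPolynomial (Fin n) ℤ, (X j - X k) * g = f - swapVars j k f then h.choose else 0

/-- The operator `π̄ f = ∂ ((1 - x_k) x_j f)`; it is used for `k = j + 1`. -/
def piBar {n : ℕ} (j k : Fin n) (f : MvPolynomial (Fin n) ℤ) : MvPolynomial (Fin n) ℤ :=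
  divDiff j k ((1 - X k) * (X j * f))

/-- The pair `j, k` is an ascent of `α`: `k = j + 1` and `α_j < α_k`. -/
def Asc {n : ℕ} (α : Fin n → ℕ) (j k : Fin n) : Prop := (j : ℕ) + 1 = k ∧ α j < α k

/-- The number `∑ p α_p`, used to see that the recursion below ends. -/
def wt {n : ℕ} (α : Fin n → ℕ) : ℕ := ∑ p : Fin n, (p : ℕ) * α p

theorem wt_swap_add {n : ℕ} {α : Fin n → ℕ} {j k : Fin n} (hjk : (j : ℕ) + 1 = k) :
    wt (swapEntries α j k) + α k = wt α + α j := by
  have hne : j ≠ k := by
    intro h
    rw [h] at hjk
    omega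
  have h1 : wt (swapEntries α j k) = ∑ p : Fin n, ((Equiv.swap j k p : Fin n) : ℕ) * α p := by
    unfold wt swapEntries
    rw [← Equiv.sum_comp (Equiv.swap j k)]
    refine Finset.sum_congr rfl (fun p _ => ?_)
    simp
  have key : ∑ p : Fin n, (((Equiv.swap j k p : Fin n) : ℕ) * α p + if p = k then α k else 0) =
      ∑ p : Fin n, ((p : ℕ) * α p + if p = j then α j else 0) := by
    refine Finset.sum_congr rfl (fun p _ => ?_)
    by_cases hpj : p = j
    · subst hpj
      rw [Equiv.swap_apply_left, if_neg hne, if_pos rfl, ← hjk]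
      ring
    · by_cases hpk : p = k
      · subst hpk
        rw [Equiv.swap_apply_right, if_pos rfl, if_neg hpj, ← hjk]
        ring
      · rw [Equiv.swap_apply_of_ne_of_ne hpj hpk, if_neg hpk, if_neg hpj]
  rw [Finset.sum_add_distrib, Finset.sum_add_distrib, Finset.sum_ite_eq', Finset.sum_ite_eq',
    if_pos (Finset.mem_univ _), if_pos (Finset.mem_univ _)] at key
  rw [h1]
  exact key

theorem Asc.wt_lt {n : ℕ} {α : Fin n → ℕ} {j k : Fin n} (h : Asc α j k) :
    wt (swapEntries α j k) < wt α := by
  have h1 := wt_swap_add (α := α) h.1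
  have h2 := h.2
  omega

/-- The general recursion: an object `F(α)` with `F(α) = T_j F(α · s_j)` for an ascent `j` of `α`
and `F(α) = seed α` when `α` is weakly decreasing. -/
def sortRec {n : ℕ} {E : Type} (T : Fin n → Fin n → E → E) (seed : (Fin n → ℕ) → E)
    (α : Fin n → ℕ) : E :=
  if h : ∃ jk : Fin n × Fin n, Asc α jk.1 jk.2 then
    T h.choose.1 h.choose.2 (sortRec T seed (swapEntries α h.choose.1 h.choose.2))
  else seed α
termination_by wt α
decreasing_by exact h.choose_spec.wt_lt

/-- The Lascoux polynomial `𝔏_α`: the monomial `x^α` if `α` is weakly decreasing, and otherwise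
`π̄_j 𝔏_{α · s_j}` for some ascent `j` of `α`. The theorem `lascoux_of_asc` below shows that
`𝔏_α = π̄_j 𝔏_{α · s_j}` then holds for every ascent `j` of `α`. -/
def lascoux {n : ℕ} (α : Fin n → ℕ) : MvPolynomial (Fin n) ℤ :=
  sortRec piBar (fun α => ∏ p, X p ^ α p) α

/-! ## The recursion does not depend on the choices -/

section Recursion

variable {n : ℕ}

theorem swapEntries_left (α : Fin n → ℕ) (j k : Fin n) : swapEntries α j k j = α k := by
  simp [swapEntries]

theorem swapEntries_right (α : Fin n → ℕ) (j k : Fin n) : swapEntries α j k k = α j := by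
  simp [swapEntries]

theorem swapEntries_of_ne (α : Fin n → ℕ) {j k p : Fin n} (h1 : p ≠ j) (h2 : p ≠ k) :
    swapEntries α j k p = α p := by
  simp [swapEntries, Equiv.swap_apply_of_ne_of_ne h1 h2]

theorem sum_swapEntries (α : Fin n → ℕ) (j k : Fin n) :
    ∑ p, swapEntries α j k p = ∑ p, α p :=
  Equiv.sum_comp (Equiv.swap j k) α

theorem swapEntries_swapEntries (α : Fin n → ℕ) (j k : Fin n) :
    swapEntries (swapEntries α j k) j k = α := by
  funext p
  simp [swapEntries]

theorem swapEntries_self_of_eq {α : Fin n → ℕ} {j k : Fin n} (h : α j = α k) :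
    swapEntries α j k = α := by
  funext p
  by_cases h1 : p = j
  · rw [h1, swapEntries_left, h]
  · by_cases h2 : p = k
    · rw [h2, swapEntries_right, h]
    · exact swapEntries_of_ne α h1 h2

/-- Adjacent positions. -/
def Adj (j k : Fin n) : Prop := (j : ℕ) + 1 = k

theorem Adj.ne {j k : Fin n} (h : Adj j k) : j ≠ k := by
  intro hh
  unfold Adj at h
  rw [hh] at h
  omega

/-- The operators satisfy the commutation and braid relations. -/
structure Braid {E : Type} (T : Fin n → Fin n → E → E) : Prop where
  comm : ∀ {a b c d : Fin n}, Adj a b → Adj c d → a ≠ c → a ≠ d → b ≠ c → b ≠ d → ∀ e,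
    T a b (T c d e) = T c d (T a b e)
  braid : ∀ {a b c : Fin n}, Adj a b → Adj b c → ∀ e,
    T a b (T b c (T a b e)) = T b c (T a b (T b c e))

theorem swapEntries_comm (α : Fin n → ℕ) {a b c d : Fin n} (h1 : a ≠ c) (h2 : a ≠ d)
    (h3 : b ≠ c) (h4 : b ≠ d) :
    swapEntries (swapEntries α a b) c d = swapEntries (swapEntries α c d) a b := by
  funext p
  unfold swapEntries
  simp only [Function.comp]
  congr 1
  by_cases hpa : p = a
  · subst hpa
    rw [Equiv.swap_apply_of_ne_of_ne h1 h2, Equiv.swap_apply_left,
      Equiv.swap_apply_of_ne_of_ne h3 h4]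
  · by_cases hpb : p = b
    · subst hpb
      rw [Equiv.swap_apply_of_ne_of_ne h3 h4, Equiv.swap_apply_right,
        Equiv.swap_apply_of_ne_of_ne h1 h2]
    · rw [Equiv.swap_apply_of_ne_of_ne hpa hpb]
      by_cases hpc : p = c
      · subst hpc
        rw [Equiv.swap_apply_left, Equiv.swap_apply_of_ne_of_ne h2.symm h4.symm]
      · by_cases hpd : p = d
        · subst hpd
          rw [Equiv.swap_apply_right, Equiv.swap_apply_of_ne_of_ne h1.symm h3.symm]
        · rw [Equiv.swap_apply_of_ne_of_ne hpc hpd, Equiv.swap_apply_of_ne_of_ne hpa hpb]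

theorem swapEntries_braid (α : Fin n → ℕ) {a b c : Fin n} (hab : a ≠ b) (hbc : b ≠ c)
    (hac : a ≠ c) :
    swapEntries (swapEntries (swapEntries α a b) b c) a b =
      swapEntries (swapEntries (swapEntries α b c) a b) b c := by
  funext p
  by_cases hpa : p = a
  · subst hpa
    rw [swapEntries_left, swapEntries_left, swapEntries_of_ne _ hac.symm hbc.symm,
      swapEntries_of_ne _ hab hac, swapEntries_left, swapEntries_left]
  · by_cases hpb : p = b
    · subst hpb
      rw [swapEntries_right, swapEntries_of_ne _ hab hac, swapEntries_left, swapEntries_left,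
        swapEntries_of_ne _ hac.symm hbc.symm, swapEntries_right]
    · by_cases hpc : p = c
      · subst hpc
        rw [swapEntries_of_ne _ hpa hpb, swapEntries_right, swapEntries_right,
          swapEntries_right, swapEntries_right, swapEntries_of_ne _ hab hac]
      · rw [swapEntries_of_ne _ hpa hpb, swapEntries_of_ne _ hpb hpc, swapEntries_of_ne _ hpa hpb,
          swapEntries_of_ne _ hpb hpc, swapEntries_of_ne _ hpa hpb, swapEntries_of_ne _ hpb hpc]

theorem sortRec_eq {E : Type} {T : Fin n → Fin n → E → E} (hT : Braid T)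
    (seed : (Fin n → ℕ) → E) : ∀ (w : ℕ) (α : Fin n → ℕ), wt α = w → ∀ {j k : Fin n},
      Asc α j k → sortRec T seed α = T j k (sortRec T seed (swapEntries α j k)) := by
  intro w
  induction w using Nat.strong_induction_on with
  | _ w ih =>
    intro α hα j k hjk
    have hex : ∃ jk : Fin n × Fin n, Asc α jk.1 jk.2 := ⟨(j, k), hjk⟩
    have hun : sortRec T seed α = T hex.choose.1 hex.choose.2
        (sortRec T seed (swapEntries α hex.choose.1 hex.choose.2)) := by
      conv_lhs => rw [sortRec]
      rw [dif_pos hex]
    obtain ⟨a, b, hab, hchoose⟩ : ∃ a b, Asc α a b ∧ sortRec T seed α =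
        T a b (sortRec T seed (swapEntries α a b)) :=
      ⟨_, _, hex.choose_spec, hun⟩
    rw [hchoose]
    -- the case of three consecutive positions
    have key : ∀ x y z : Fin n, Asc α x y → Asc α y z →
        T x y (sortRec T seed (swapEntries α x y)) =
          T y z (sortRec T seed (swapEntries α y z)) := by
      intro x y z hxy hyz
      have nxy : x ≠ y := Adj.ne hxy.1
      have nyz : y ≠ z := Adj.ne hyz.1
      have nxz : x ≠ z := by
        intro h
        have h1 := hxy.1
        have h2 := hyz.1
        rw [h] at h1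
        omega
      have hxz : α x < α z := lt_trans hxy.2 hyz.2
      have a1 : Asc (swapEntries α x y) y z := by
        refine ⟨hyz.1, ?_⟩
        rw [swapEntries_right, swapEntries_of_ne _ nxz.symm nyz.symm]
        exact hxz
      have a2 : Asc (swapEntries (swapEntries α x y) y z) x y := by
        refine ⟨hxy.1, ?_⟩
        rw [swapEntries_of_ne _ nxy nxz, swapEntries_left, swapEntries_left,
          swapEntries_of_ne _ nxz.symm nyz.symm]
        exact hyz.2
      have b1 : Asc (swapEntries α y z) x y := by
        refine ⟨hxy.1, ?_⟩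
        rw [swapEntries_of_ne _ nxy nxz, swapEntries_left]
        exact hxz
      have b2 : Asc (swapEntries (swapEntries α y z) x y) y z := by
        refine ⟨hyz.1, ?_⟩
        rw [swapEntries_right, swapEntries_of_ne _ nxy nxz,
          swapEntries_of_ne _ nxz.symm nyz.symm, swapEntries_right]
        exact hxy.2
      have l1 : wt (swapEntries α x y) < w := hα ▸ hxy.wt_lt
      have l2 : wt (swapEntries α y z) < w := hα ▸ hyz.wt_lt
      rw [ih _ l1 _ rfl a1, ih _ (lt_trans a1.wt_lt l1) _ rfl a2, ih _ l2 _ rfl b1,
        ih _ (lt_trans b1.wt_lt l2) _ rfl b2, swapEntries_braid α nxy nyz nxz]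
      exact hT.braid hxy.1 hyz.1 _
    by_cases haj : a = j
    · have hbk : b = k := by
        apply Fin.ext
        rw [← hab.1, ← hjk.1, haj]
      rw [haj, hbk]
    · have hbk : b ≠ k := by
        intro h
        apply haj
        apply Fin.ext
        have h1 := hab.1
        have h2 := hjk.1
        rw [h] at h1
        omega
      by_cases hbj : b = j
      · subst hbj
        exact key a b k hab hjk
      · by_cases hak : a = k
        · subst hak
          exact (key j a b hjk hab).symm
        · have l1 : wt (swapEntries α a b) < w := hα ▸ hab.wt_lt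
          have l2 : wt (swapEntries α j k) < w := hα ▸ hjk.wt_lt
          have a1 : Asc (swapEntries α a b) j k := by
            refine ⟨hjk.1, ?_⟩
            rw [swapEntries_of_ne _ (Ne.symm haj) (Ne.symm hbj),
              swapEntries_of_ne _ (Ne.symm hak) (Ne.symm hbk)]
            exact hjk.2
          have b1 : Asc (swapEntries α j k) a b := by
            refine ⟨hab.1, ?_⟩
            rw [swapEntries_of_ne _ haj hak, swapEntries_of_ne _ hbj hbk]
            exact hab.2
          rw [ih _ l1 _ rfl a1, ih _ l2 _ rfl b1, swapEntries_comm α haj hak hbj hbk]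
          exact hT.comm hab.1 hjk.1 haj hak hbj hbk _

theorem sortRec_of_asc {E : Type} {T : Fin n → Fin n → E → E} (hT : Braid T)
    (seed : (Fin n → ℕ) → E) {α : Fin n → ℕ} {j k : Fin n} (h : Asc α j k) :
    sortRec T seed α = T j k (sortRec T seed (swapEntries α j k)) :=
  sortRec_eq hT seed _ α rfl h

theorem sortRec_of_not_asc {E : Type} (T : Fin n → Fin n → E → E)
    (seed : (Fin n → ℕ) → E) {α : Fin n → ℕ} (h : ∀ j k, ¬ Asc α j k) :
    sortRec T seed α = seed α := by
  rw [sortRec, dif_neg]
  rintro ⟨jk, hjk⟩
  exact h _ _ hjk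

end Recursion

/-! ## The operators -/

section Operators

variable {n : ℕ}

theorem swapVars_add (j k : Fin n) (f g : MvPolynomial (Fin n) ℤ) :
    swapVars j k (f + g) = swapVars j k f + swapVars j k g := map_add _ _ _

theorem swapVars_sub (j k : Fin n) (f g : MvPolynomial (Fin n) ℤ) :
    swapVars j k (f - g) = swapVars j k f - swapVars j k g := map_sub _ _ _

theorem swapVars_mul (j k : Fin n) (f g : MvPolynomial (Fin n) ℤ) :
    swapVars j k (f * g) = swapVars j k f * swapVars j k g := map_mul _ _ _

theorem swapVars_one (j k : Fin n) : swapVars j k 1 = 1 := map_one _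

theorem swapVars_X (j k p : Fin n) : swapVars j k (X p) = X (Equiv.swap j k p) := by
  unfold swapVars
  rw [rename_X]

theorem swapVars_X_left (j k : Fin n) : swapVars j k (X j) = X k := by
  rw [swapVars_X, Equiv.swap_apply_left]

theorem swapVars_X_right (j k : Fin n) : swapVars j k (X k) = X j := by
  rw [swapVars_X, Equiv.swap_apply_right]

theorem swapVars_X_of_ne {j k p : Fin n} (h1 : p ≠ j) (h2 : p ≠ k) :
    swapVars j k (X p) = X p := by
  rw [swapVars_X, Equiv.swap_apply_of_ne_of_ne h1 h2]

theorem swapVars_swapVars (j k : Fin n) (f : MvPolynomial (Fin n) ℤ) :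
    swapVars j k (swapVars j k f) = f := by
  unfold swapVars
  rw [rename_rename]
  have : (Equiv.swap j k : Fin n → Fin n) ∘ (Equiv.swap j k) = id := by
    funext p
    simp
  rw [this, rename_id_apply]

theorem divDiff_exists (j k : Fin n) (f : MvPolynomial (Fin n) ℤ) :
    ∃ g : MvPolynomial (Fin n) ℤ, (X j - X k) * g = f - swapVars j k f := by
  induction f using MvPolynomial.induction_on with
  | C a => exact ⟨0, by simp [swapVars]⟩
  | add p q hp hq =>
    obtain ⟨g, hg⟩ := hp
    obtain ⟨h, hh⟩ := hq
    exact ⟨g + h, by rw [mul_add, hg, hh, swapVars_add]; ring⟩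
  | mul_X p m hp =>
    obtain ⟨g, hg⟩ := hp
    by_cases h1 : m = j
    · subst h1
      refine ⟨g * X m + swapVars m k p, ?_⟩
      rw [swapVars_mul, swapVars_X_left]
      linear_combination (X m) * hg
    · by_cases h2 : m = k
      · subst h2
        refine ⟨g * X m - swapVars j m p, ?_⟩
        rw [swapVars_mul, swapVars_X_right]
        linear_combination (X m) * hg
      · refine ⟨g * X m, ?_⟩
        rw [swapVars_mul, swapVars_X_of_ne h1 h2]
        linear_combination (X m) * hg

theorem divDiff_spec (j k : Fin n) (f : MvPolynomial (Fin n) ℤ) :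
    (X j - X k) * divDiff j k f = f - swapVars j k f := by
  unfold divDiff
  rw [dif_pos (divDiff_exists j k f)]
  exact (divDiff_exists j k f).choose_spec

theorem piBar_spec (j k : Fin n) (f : MvPolynomial (Fin n) ℤ) :
    (X j - X k) * piBar j k f = X j * (1 - X k) * f - X k * (1 - X j) * swapVars j k f := by
  unfold piBar
  rw [divDiff_spec, swapVars_mul, swapVars_mul, swapVars_sub, swapVars_one, swapVars_X_left,
    swapVars_X_right]
  ring

theorem X_sub_X_ne_zero {j k : Fin n} (h : j ≠ k) :
    (X j - X k : MvPolynomial (Fin n) ℤ) ≠ 0 := by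
  intro hh
  exact h (MvPolynomial.X_injective (sub_eq_zero.1 hh))

theorem piBar_unique {j k : Fin n} (h : j ≠ k) {f g : MvPolynomial (Fin n) ℤ}
    (hg : (X j - X k) * g = X j * (1 - X k) * f - X k * (1 - X j) * swapVars j k f) :
    piBar j k f = g := by
  apply mul_left_cancel₀ (X_sub_X_ne_zero h)
  rw [piBar_spec, hg]

theorem piBar_add {j k : Fin n} (h : j ≠ k) (f g : MvPolynomial (Fin n) ℤ) :
    piBar j k (f + g) = piBar j k f + piBar j k g := by
  apply piBar_unique h
  rw [swapVars_add]
  linear_combination piBar_spec j k f + piBar_spec j k g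

theorem piBar_sub {j k : Fin n} (h : j ≠ k) (f g : MvPolynomial (Fin n) ℤ) :
    piBar j k (f - g) = piBar j k f - piBar j k g := by
  apply piBar_unique h
  rw [swapVars_sub]
  linear_combination piBar_spec j k f - piBar_spec j k g

/-- Symmetric factors can be pulled out. -/
theorem piBar_mul {j k : Fin n} (h : j ≠ k) {m : MvPolynomial (Fin n) ℤ}
    (hm : swapVars j k m = m) (f : MvPolynomial (Fin n) ℤ) :
    piBar j k (m * f) = m * piBar j k f := by
  apply piBar_unique h
  rw [swapVars_mul, hm]
  linear_combination m * piBar_spec j k f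

theorem piBar_of_symm {j k : Fin n} (h : j ≠ k) {m : MvPolynomial (Fin n) ℤ}
    (hm : swapVars j k m = m) : piBar j k m = m := by
  apply piBar_unique h
  rw [hm]
  ring

theorem swapVars_piBar {j k : Fin n} (h : j ≠ k) (f : MvPolynomial (Fin n) ℤ) :
    swapVars j k (piBar j k f) = piBar j k f := by
  symm
  apply piBar_unique h
  have h1 := congrArg (swapVars j k) (piBar_spec j k f)
  simp only [swapVars_mul, swapVars_sub, swapVars_one, swapVars_X_left, swapVars_X_right,
    swapVars_swapVars] at h1
  linear_combination -h1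

theorem piBar_piBar {j k : Fin n} (h : j ≠ k) (f : MvPolynomial (Fin n) ℤ) :
    piBar j k (piBar j k f) = piBar j k f :=
  piBar_of_symm h (swapVars_piBar h f)

theorem swapVars_comm {a b c d : Fin n} (h1 : a ≠ c) (h2 : a ≠ d) (h3 : b ≠ c) (h4 : b ≠ d)
    (f : MvPolynomial (Fin n) ℤ) :
    swapVars a b (swapVars c d f) = swapVars c d (swapVars a b f) := by
  unfold swapVars
  rw [rename_rename, rename_rename]
  congr 2
  funext p
  simp only [Function.comp]
  by_cases hpa : p = a
  · subst hpa
    rw [Equiv.swap_apply_of_ne_of_ne h1 h2, Equiv.swap_apply_left,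
      Equiv.swap_apply_of_ne_of_ne h3 h4]
  · by_cases hpb : p = b
    · subst hpb
      rw [Equiv.swap_apply_of_ne_of_ne h3 h4, Equiv.swap_apply_right,
        Equiv.swap_apply_of_ne_of_ne h1 h2]
    · rw [Equiv.swap_apply_of_ne_of_ne hpa hpb]
      by_cases hpc : p = c
      · subst hpc
        rw [Equiv.swap_apply_left, Equiv.swap_apply_of_ne_of_ne h2.symm h4.symm]
      · by_cases hpd : p = d
        · subst hpd
          rw [Equiv.swap_apply_right, Equiv.swap_apply_of_ne_of_ne h1.symm h3.symm]
        · rw [Equiv.swap_apply_of_ne_of_ne hpc hpd, Equiv.swap_apply_of_ne_of_ne hpa hpb]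

theorem swapVars_braid {a b c : Fin n} (hab : a ≠ b) (hbc : b ≠ c) (hac : a ≠ c)
    (f : MvPolynomial (Fin n) ℤ) :
    swapVars a b (swapVars b c (swapVars a b f)) =
      swapVars b c (swapVars a b (swapVars b c f)) := by
  unfold swapVars
  rw [rename_rename, rename_rename, rename_rename, rename_rename]
  congr 2
  funext p
  simp only [Function.comp]
  by_cases hpa : p = a
  · subst hpa
    rw [Equiv.swap_apply_left, Equiv.swap_apply_left,
      Equiv.swap_apply_of_ne_of_ne hac.symm hbc.symm, Equiv.swap_apply_of_ne_of_ne hab hac,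
      Equiv.swap_apply_left, Equiv.swap_apply_left]
  · by_cases hpb : p = b
    · subst hpb
      rw [Equiv.swap_apply_right, Equiv.swap_apply_of_ne_of_ne hab hac, Equiv.swap_apply_left,
        Equiv.swap_apply_left, Equiv.swap_apply_of_ne_of_ne hac.symm hbc.symm,
        Equiv.swap_apply_right]
    · by_cases hpc : p = c
      · subst hpc
        rw [Equiv.swap_apply_of_ne_of_ne hpa hpb, Equiv.swap_apply_right,
          Equiv.swap_apply_right, Equiv.swap_apply_of_ne_of_ne hab hac]
      · rw [Equiv.swap_apply_of_ne_of_ne hpa hpb, Equiv.swap_apply_of_ne_of_ne hpb hpc,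
          Equiv.swap_apply_of_ne_of_ne hpa hpb, Equiv.swap_apply_of_ne_of_ne hpb hpc]

theorem piBar_comm {a b c d : Fin n} (hab : a ≠ b) (hcd : c ≠ d) (h1 : a ≠ c) (h2 : a ≠ d)
    (h3 : b ≠ c) (h4 : b ≠ d) (f : MvPolynomial (Fin n) ℤ) :
    piBar a b (piBar c d f) = piBar c d (piBar a b f) := by
  have e1 := piBar_spec c d f
  have e2 := piBar_spec a b (piBar c d f)
  have e3 := congrArg (swapVars a b) e1
  have f1 := piBar_spec a b f
  have f2 := piBar_spec c d (piBar a b f)
  have f3 := congrArg (swapVars c d) f1
  simp only [swapVars_mul, swapVars_sub, swapVars_one,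
    swapVars_X_of_ne h1.symm h3.symm, swapVars_X_of_ne h2.symm h4.symm] at e3
  simp only [swapVars_mul, swapVars_sub, swapVars_one,
    swapVars_X_of_ne h1 h2, swapVars_X_of_ne h3 h4] at f3
  rw [swapVars_comm h1.symm h3.symm h2.symm h4.symm] at f3
  apply mul_left_cancel₀ (mul_ne_zero (X_sub_X_ne_zero hab) (X_sub_X_ne_zero hcd))
  linear_combination (X c - X d) * e2 + X a * (1 - X b) * e1 - X b * (1 - X a) * e3 -
    (X a - X b) * f2 - X c * (1 - X d) * f1 + X d * (1 - X c) * f3

theorem piBar_braid {a b c : Fin n} (hab : a ≠ b) (hbc : b ≠ c) (hac : a ≠ c)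
    (f : MvPolynomial (Fin n) ℤ) :
    piBar a b (piBar b c (piBar a b f)) = piBar b c (piBar a b (piBar b c f)) := by
  have sbr := swapVars_braid hab hbc hac f
  have e1 := piBar_spec a b f
  have e2 := piBar_spec b c (piBar a b f)
  have e3 := piBar_spec a b (piBar b c (piBar a b f))
  have e4 := congrArg (swapVars b c) e1
  have e5 := congrArg (swapVars a b) e2
  have e6 := congrArg (swapVars a b) e1
  simp only [swapVars_mul, swapVars_sub, swapVars_one, swapVars_X_left, swapVars_X_right,
    swapVars_X_of_ne hab hac, swapVars_X_of_ne hac.symm hbc.symm, swapVars_swapVars]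
    at e4 e5 e6
  have e7 := congrArg (swapVars a b) e4
  simp only [swapVars_mul, swapVars_sub, swapVars_one, swapVars_X_left, swapVars_X_right,
    swapVars_X_of_ne hab hac, swapVars_X_of_ne hac.symm hbc.symm, swapVars_swapVars] at e7
  have g1 := piBar_spec b c f
  have g2 := piBar_spec a b (piBar b c f)
  have g3 := piBar_spec b c (piBar a b (piBar b c f))
  have g4 := congrArg (swapVars a b) g1
  have g5 := congrArg (swapVars b c) g2
  have g6 := congrArg (swapVars b c) g1
  simp only [swapVars_mul, swapVars_sub, swapVars_one, swapVars_X_left, swapVars_X_right,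
    swapVars_X_of_ne hab hac, swapVars_X_of_ne hac.symm hbc.symm, swapVars_swapVars]
    at g4 g5 g6
  have g7 := congrArg (swapVars b c) g4
  simp only [swapVars_mul, swapVars_sub, swapVars_one, swapVars_X_left, swapVars_X_right,
    swapVars_X_of_ne hab hac, swapVars_X_of_ne hac.symm hbc.symm, swapVars_swapVars] at g7
  rw [← sbr] at g7
  set F1 := swapVars a b f
  set F2 := swapVars b c f
  set F12 := swapVars a b F2
  set F21 := swapVars b c F1
  set F3 := swapVars a b (swapVars b c F1)
  set R : MvPolynomial (Fin n) ℤ := X a ^ 2 * X b * (1 - X b) * (1 - X c) ^ 2 * f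
    - X b ^ 2 * X a * (1 - X a) * (1 - X c) ^ 2 * F1
    - X a ^ 2 * X c * (1 - X c) * (1 - X b) ^ 2 * F2
    + X b ^ 2 * X c * (1 - X c) * (1 - X a) ^ 2 * F12
    + X c ^ 2 * X a * (1 - X a) * (1 - X b) ^ 2 * F21
    - X c ^ 2 * X b * (1 - X b) * (1 - X a) ^ 2 * F3 with hR
  have k1 : (X a - X b) * (X a - X c) * (X b - X c) *
      piBar a b (piBar b c (piBar a b f)) = R := by
    apply mul_left_cancel₀ (X_sub_X_ne_zero hab)
    rw [hR]
    linear_combination (X a - X b) * (X a - X c) * (X b - X c) * e3 +
      (X a * (1 - X b) * (X a - X b) * (X a - X c)) * e2 +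
      (X a * (1 - X b) * (X a - X c) * X b * (1 - X c)) * e1 -
      (X a * (1 - X b) * (X a - X b) * X c * (1 - X b)) * e4 -
      (X b * (1 - X a) * (X a - X b) * (X b - X c)) * e5 +
      (X b * (1 - X a) * X a * (1 - X c) * (X b - X c)) * e6 +
      (X b * (1 - X a) * (X a - X b) * X c * (1 - X a)) * e7
  have k2 : (X a - X b) * (X a - X c) * (X b - X c) *
      piBar b c (piBar a b (piBar b c f)) = R := by
    apply mul_left_cancel₀ (X_sub_X_ne_zero hbc)
    rw [hR]
    linear_combination (X a - X b) * (X a - X c) * (X b - X c) * g3 +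
      (X b * (1 - X c) * (X b - X c) * (X a - X c)) * g2 +
      (X b * (1 - X c) * (X a - X c) * X a * (1 - X b)) * g1 -
      (X b * (1 - X c) * (X b - X c) * X b * (1 - X a)) * g4 -
      (X c * (1 - X b) * (X a - X b) * (X b - X c)) * g5 +
      (X c * (1 - X b) * (X a - X b) * X a * (1 - X c)) * g6 +
      (X c * (1 - X b) * (X b - X c) * X c * (1 - X a)) * g7
  apply mul_left_cancel₀ (mul_ne_zero (mul_ne_zero (X_sub_X_ne_zero hab) (X_sub_X_ne_zero hac))
    (X_sub_X_ne_zero hbc))
  rw [k1, k2]

theorem Adj.ne_of_adj {a b c : Fin n} (h1 : Adj a b) (h2 : Adj b c) : a ≠ c := by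
  intro h
  unfold Adj at h1 h2
  rw [h] at h1
  omega

theorem braid_piBar : Braid (n := n) piBar :=
  ⟨fun h1 h2 => piBar_comm h1.ne h2.ne, fun h1 h2 => piBar_braid h1.ne h2.ne (h1.ne_of_adj h2)⟩

/-- The defining recursion holds for every ascent. -/
theorem lascoux_of_asc {α : Fin n → ℕ} {j k : Fin n} (h : Asc α j k) :
    lascoux α = piBar j k (lascoux (swapEntries α j k)) :=
  sortRec_of_asc braid_piBar _ h

theorem lascoux_of_not_asc {α : Fin n → ℕ} (h : ∀ j k, ¬ Asc α j k) :
    lascoux α = ∏ p, X p ^ α p :=
  sortRec_of_not_asc _ _ h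

end Operators

/-! ## The cone of graded nonnegative combinations -/

section Cone

variable {n : ℕ}

/-- The sums of terms `(-1)^k 𝔏_γ` with `|γ| = d + k`. -/
def cone (n d : ℕ) : AddSubmonoid (MvPolynomial (Fin n) ℤ) :=
  AddSubmonoid.closure {f | ∃ (γ : Fin n → ℕ) (k : ℕ), ∑ p, γ p = d + k ∧
    f = (-1) ^ k * lascoux γ}

theorem lascoux_mem_cone (γ : Fin n → ℕ) : lascoux γ ∈ cone n (∑ p, γ p) :=
  AddSubmonoid.subset_closure ⟨γ, 0, rfl, by simp⟩

theorem neg_mem_cone {d : ℕ} {f : MvPolynomial (Fin n) ℤ} (hf : f ∈ cone n (d + 1)) :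
    -f ∈ cone n d := by
  induction hf using AddSubmonoid.closure_induction with
  | mem f hf =>
    obtain ⟨γ, k, hγ, rfl⟩ := hf
    exact AddSubmonoid.subset_closure ⟨γ, k + 1, by rw [hγ]; ring, by ring⟩
  | zero => simp
  | add f g _ _ hf hg =>
    rw [neg_add]
    exact (cone n d).add_mem hf hg

/-- Weakly decreasing compositions. -/
def Dom (α : Fin n → ℕ) : Prop := ∀ j k, ¬ Asc α j k

theorem swapVars_monomial (j k : Fin n) (α : Fin n → ℕ) :
    swapVars j k (∏ p, X p ^ α p) = ∏ p, X p ^ swapEntries α j k p := by
  unfold swapVars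
  rw [map_prod, ← Equiv.prod_comp (Equiv.swap j k) (fun p => X p ^ swapEntries α j k p)]
  refine Finset.prod_congr rfl (fun p _ => ?_)
  rw [map_pow, rename_X]
  unfold swapEntries
  simp

theorem piBar_lascoux_of_le {α : Fin n → ℕ} {j k : Fin n} (hjk : Adj j k) (h : α j ≤ α k) :
    piBar j k (lascoux α) = lascoux α := by
  rcases lt_or_eq_of_le h with hlt | heq
  · rw [lascoux_of_asc ⟨hjk, hlt⟩, piBar_piBar hjk.ne]
  · clear h
    -- induction on the weight
    obtain ⟨w, hw⟩ : ∃ w, wt α = w := ⟨_, rfl⟩
    induction w using Nat.strong_induction_on generalizing α j k with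
    | _ w ih =>
      by_cases hd : ∃ a b, Asc α a b
      · obtain ⟨a, b, hab⟩ := hd
        have hlt : wt (swapEntries α a b) < w := hw ▸ hab.wt_lt
        have nab : a ≠ b := Adj.ne hab.1
        have njk : j ≠ k := hjk.ne
        by_cases hbj : b = j
        · -- positions a, b = j, k
          subst hbj
          have nak : a ≠ k := Adj.ne_of_adj hab.1 hjk
          have a1 : Asc (swapEntries α a b) b k := by
            refine ⟨hjk, ?_⟩
            rw [swapEntries_right, swapEntries_of_ne _ nak.symm njk.symm, ← heq]
            exact hab.2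
          have hlt2 := lt_trans a1.wt_lt hlt
          have heq2 : swapEntries (swapEntries α a b) b k a =
              swapEntries (swapEntries α a b) b k b := by
            rw [swapEntries_of_ne _ nab nak, swapEntries_left, swapEntries_left,
              swapEntries_of_ne _ nak.symm njk.symm, heq]
          have hih := ih _ hlt2 hab.1 heq2 rfl
          rw [lascoux_of_asc hab, lascoux_of_asc a1, ← piBar_braid nab njk nak, hih]
        · by_cases hak : a = k
          · -- positions j, k, b with k = a
            subst hak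
            have njb : j ≠ b := Adj.ne_of_adj hjk hab.1
            have a1 : Asc (swapEntries α a b) j a := by
              refine ⟨hjk, ?_⟩
              rw [swapEntries_of_ne _ njk njb, swapEntries_left, heq]
              exact hab.2
            have hlt2 := lt_trans a1.wt_lt hlt
            have heq2 : swapEntries (swapEntries α a b) j a a =
                swapEntries (swapEntries α a b) j a b := by
              rw [swapEntries_right, swapEntries_of_ne _ njk njb,
                swapEntries_of_ne _ njb.symm nab.symm, swapEntries_right, heq]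
            have hih := ih _ hlt2 hab.1 heq2 rfl
            rw [lascoux_of_asc hab, lascoux_of_asc a1, piBar_braid njk nab njb, hih]
          · have haj : a ≠ j := by
              intro h
              subst h
              have : b = k := Fin.ext (by rw [← hab.1]; exact hjk)
              subst this
              exact absurd heq (ne_of_lt hab.2)
            have hbk : b ≠ k := by
              intro h
              subst h
              apply haj
              apply Fin.ext
              have h1 := hab.1
              have h2 : (j : ℕ) + 1 = b := hjk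
              omega
            have heq2 : swapEntries α a b j = swapEntries α a b k := by
              rw [swapEntries_of_ne _ haj.symm (Ne.symm hbj),
                swapEntries_of_ne _ (Ne.symm hak) hbk.symm, heq]
            have hih := ih _ hlt hjk heq2 rfl
            rw [lascoux_of_asc hab, piBar_comm njk nab haj.symm (Ne.symm hbj) (Ne.symm hak)
              hbk.symm, hih]
      · push Not at hd
        rw [lascoux_of_not_asc hd]
        apply piBar_of_symm hjk.ne
        rw [swapVars_monomial, swapEntries_self_of_eq heq]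

theorem piBar_lascoux_of_gt {α : Fin n → ℕ} {j k : Fin n} (hjk : Adj j k) (h : α k < α j) :
    piBar j k (lascoux α) = lascoux (swapEntries α j k) := by
  have h1 : Asc (swapEntries α j k) j k := by
    refine ⟨hjk, ?_⟩
    rw [swapEntries_left, swapEntries_right]
    exact h
  rw [lascoux_of_asc h1, swapEntries_swapEntries]

theorem piBar_zero {j k : Fin n} (h : j ≠ k) : piBar j k (0 : MvPolynomial (Fin n) ℤ) = 0 := by
  apply piBar_unique h
  unfold swapVars
  simp

theorem piBar_mem_cone {d : ℕ} {j k : Fin n} (hjk : Adj j k) {f : MvPolynomial (Fin n) ℤ}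
    (hf : f ∈ cone n d) : piBar j k f ∈ cone n d := by
  induction hf using AddSubmonoid.closure_induction with
  | mem f hf =>
    obtain ⟨γ, m, hγ, rfl⟩ := hf
    have hs : swapVars j k ((-1) ^ m) = (-1) ^ m := by
      unfold swapVars
      simp
    rw [piBar_mul hjk.ne hs]
    rcases le_or_gt (γ j) (γ k) with h | h
    · rw [piBar_lascoux_of_le hjk h]
      exact AddSubmonoid.subset_closure ⟨γ, m, hγ, rfl⟩
    · rw [piBar_lascoux_of_gt hjk h]
      exact AddSubmonoid.subset_closure ⟨_, m, by rw [sum_swapEntries, hγ], rfl⟩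
  | zero =>
    rw [piBar_zero hjk.ne]
    exact (cone n d).zero_mem
  | add f g _ _ hf hg =>
    rw [piBar_add hjk.ne]
    exact (cone n d).add_mem hf hg

/-- The base case: a dominant monomial times a product of factors `1 - x_p`. -/
theorem base_mem (D : Finset (Fin n)) : ∀ (μ : Fin n → ℕ), Dom μ →
    (∀ p q, Adj p q → p ∉ D → q ∈ D → μ q < μ p) →
    (∏ p, X p ^ μ p) * (∏ p ∈ D, (1 - X p)) ∈ cone n (∑ p, μ p) := by
  induction D using Finset.induction_on_max with
  | empty =>
    intro μ hμ _
    rw [Finset.prod_empty, mul_one, ← lascoux_of_not_asc hμ]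
    exact lascoux_mem_cone μ
  | insert r s hs ih =>
    intro μ hμ hcond
    have hrs : r ∉ s := fun h => lt_irrefl _ (hs r h)
    have hcond' : ∀ p q, Adj p q → p ∉ s → q ∈ s → μ q < μ p := by
      intro p q hpq hp hq
      refine hcond p q hpq ?_ (Finset.mem_insert_of_mem hq)
      rw [Finset.mem_insert]
      rintro (h | h)
      · have h1 := hs q hq
        have h2 : (p : ℕ) + 1 = q := hpq
        rw [← h] at h1
        have h3 : (q : ℕ) < p := h1
        omega
      · exact hp h
    rw [Finset.prod_insert hrs]
    by_cases hq : ∃ q, Adj q r ∧ q ∈ s ∧ μ q = μ r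
    · obtain ⟨q, hqr, hqs, hμq⟩ := hq
      have hne := hqr.ne
      have hprod : ∏ p ∈ s, (1 - X p : MvPolynomial (Fin n) ℤ) =
          (1 - X q) * ∏ p ∈ s.erase q, (1 - X p) := (Finset.mul_prod_erase s _ hqs).symm
      have hsym : swapVars q r ((∏ p, X p ^ μ p) * ∏ p ∈ s.erase q, (1 - X p)) =
          (∏ p, X p ^ μ p) * ∏ p ∈ s.erase q, (1 - X p) := by
        rw [swapVars_mul, swapVars_monomial, swapEntries_self_of_eq hμq]
        congr 1
        unfold swapVars
        rw [map_prod]
        refine Finset.prod_congr rfl (fun p hp => ?_)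
        have hpq : p ≠ q := Finset.ne_of_mem_erase hp
        have hpr : p ≠ r := fun h => hrs (h ▸ Finset.mem_of_mem_erase hp)
        rw [map_sub, map_one, rename_X, Equiv.swap_apply_of_ne_of_ne hpq hpr]
      have hone : piBar q r (1 - X q : MvPolynomial (Fin n) ℤ) = (1 - X q) * (1 - X r) := by
        apply piBar_unique hne
        rw [swapVars_sub, swapVars_one, swapVars_X_left]
        ring
      have heq : (∏ p, X p ^ μ p) * ((1 - X r) * ∏ p ∈ s, (1 - X p)) =
          piBar q r ((∏ p, X p ^ μ p) * ∏ p ∈ s, (1 - X p)) := by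
        rw [hprod]
        have : (∏ p, X p ^ μ p) * ((1 - X q) * ∏ p ∈ s.erase q, (1 - X p)) =
            ((∏ p, X p ^ μ p) * ∏ p ∈ s.erase q, (1 - X p)) *
              (1 - X q : MvPolynomial (Fin n) ℤ) := by ring
        rw [this, piBar_mul hne hsym, hone]
        ring
      rw [heq]
      exact piBar_mem_cone hqr (ih μ hμ hcond')
    · push Not at hq
      have hlt : ∀ q, Adj q r → μ r < μ q := by
        intro q hqr
        by_cases hqs : q ∈ s
        · have h1 := hq q hqr hqs
          have h2 := hμ q r
          unfold Asc at h2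
          push Not at h2
          have h3 := h2 hqr
          omega
        · refine hcond q r hqr ?_ (Finset.mem_insert_self _ _)
          rw [Finset.mem_insert]
          rintro (h | h)
          · exact hqr.ne h
          · exact hqs h
      set ν : Fin n → ℕ := Function.update μ r (μ r + 1) with hν
      have hνr : ν r = μ r + 1 := by rw [hν, Function.update_self]
      have hνne : ∀ p, p ≠ r → ν p = μ p := fun p hp => by
        rw [hν, Function.update_of_ne hp]
      have hνdom : Dom ν := by
        rintro a b ⟨hab, hlt'⟩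
        have hab' : Adj a b := hab
        have h1 := hμ a b
        unfold Asc at h1
        push Not at h1
        have h2 := h1 hab
        by_cases hbr : b = r
        · subst hbr
          have h3 := hlt a hab'
          rw [hνr, hνne a hab'.ne] at hlt'
          omega
        · rw [hνne b hbr] at hlt'
          by_cases har : a = r
          · subst har
            rw [hνr] at hlt'
            omega
          · rw [hνne a har] at hlt'
            omega
      have hcondν : ∀ p q, Adj p q → p ∉ s → q ∈ s → ν q < ν p := by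
        intro p q hpq hp hqs
        have hqr : q ≠ r := fun h => hrs (h ▸ hqs)
        have hpr : p ≠ r := by
          intro h
          have h1 := hs q hqs
          have h2 : (p : ℕ) + 1 = q := hpq
          rw [← h] at h1
          have h3 : (q : ℕ) < p := h1
          omega
        rw [hνne q hqr, hνne p hpr]
        exact hcond' p q hpq hp hqs
      have hsum : ∑ p, ν p = ∑ p, μ p + 1 := by
        rw [← Finset.add_sum_erase _ _ (Finset.mem_univ r),
          ← Finset.add_sum_erase _ μ (Finset.mem_univ r), hνr]
        have : ∑ p ∈ Finset.univ.erase r, ν p = ∑ p ∈ Finset.univ.erase r, μ p :=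
          Finset.sum_congr rfl (fun p hp => hνne p (Finset.ne_of_mem_erase hp))
        rw [this]
        ring
      have hmon : (∏ p, X p ^ ν p : MvPolynomial (Fin n) ℤ) = X r * ∏ p, X p ^ μ p := by
        rw [← Finset.mul_prod_erase _ _ (Finset.mem_univ r),
          ← Finset.mul_prod_erase _ (fun p => X p ^ μ p) (Finset.mem_univ r), hνr]
        have : ∏ p ∈ Finset.univ.erase r, (X p ^ ν p : MvPolynomial (Fin n) ℤ) =
            ∏ p ∈ Finset.univ.erase r, X p ^ μ p :=
          Finset.prod_congr rfl (fun p hp => by rw [hνne p (Finset.ne_of_mem_erase hp)])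
        rw [this]
        ring
      have h1 := ih μ hμ hcond'
      have h2 := ih ν hνdom hcondν
      rw [hsum] at h2
      have h3 := (cone n _).add_mem h1 (neg_mem_cone h2)
      rw [hmon] at h3
      convert h3 using 1
      ring

end Cone

/-! ## The main induction -/

section Main

variable {n : ℕ}

/-- The product of the `x_p` with `c_p ≠ 0` and of the `1 - x_p` with `c_p = 0`. -/
def mon (c : Fin n → ℕ) : MvPolynomial (Fin n) ℤ := ∏ p, if c p = 0 then 1 - X p else X p

theorem swapVars_mon (j k : Fin n) (c : Fin n → ℕ) :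
    swapVars j k (mon c) = mon (swapEntries c j k) := by
  unfold mon swapVars
  rw [map_prod, ← Equiv.prod_comp (Equiv.swap j k)
    (fun p => if swapEntries c j k p = 0 then (1 - X p : MvPolynomial (Fin n) ℤ) else X p)]
  refine Finset.prod_congr rfl (fun p _ => ?_)
  unfold swapEntries
  simp only [Function.comp, Equiv.swap_apply_self]
  split_ifs <;> simp [rename_X]

/-- The relation between the two products for `c_j ≠ 0`, `c_k = 0`. -/
theorem mon_rel {j k : Fin n} (hne : j ≠ k) {c : Fin n → ℕ} (hj : c j ≠ 0) (hk : c k = 0) :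
    X j * (1 - X k) * mon (swapEntries c j k) = X k * (1 - X j) * mon c := by
  have hkm : k ∈ Finset.univ.erase j := Finset.mem_erase.2 ⟨hne.symm, Finset.mem_univ _⟩
  unfold mon
  rw [← Finset.mul_prod_erase _ _ (Finset.mem_univ j), ← Finset.mul_prod_erase _ _ hkm,
    ← Finset.mul_prod_erase _ (fun p => if c p = 0 then (1 - X p : MvPolynomial (Fin n) ℤ)
      else X p) (Finset.mem_univ j), ← Finset.mul_prod_erase _ _ hkm,
    swapEntries_left, swapEntries_right, if_neg hj, if_pos hk]
  have : ∏ p ∈ (Finset.univ.erase j).erase k,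
      (if swapEntries c j k p = 0 then (1 - X p : MvPolynomial (Fin n) ℤ) else X p) =
      ∏ p ∈ (Finset.univ.erase j).erase k,
      (if c p = 0 then (1 - X p : MvPolynomial (Fin n) ℤ) else X p) := by
    refine Finset.prod_congr rfl (fun p hp => ?_)
    rw [Finset.mem_erase, Finset.mem_erase] at hp
    rw [swapEntries_of_ne _ hp.2.1 hp.1]
  rw [this]
  rw [if_pos hk, if_neg hj]
  ring

/-- The composed operators `G_A`. -/
def compOp (c : Fin n → ℕ) : MvPolynomial (Fin n) ℤ → MvPolynomial (Fin n) ℤ :=
  sortRec (fun j k Q => fun f => Q (piBar j k f)) (fun _ => id) c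

theorem braid_comp : Braid (n := n) (fun j k
    (Q : MvPolynomial (Fin n) ℤ → MvPolynomial (Fin n) ℤ) => fun f => Q (piBar j k f)) :=
  ⟨fun h1 h2 h3 h4 h5 h6 Q => by
      funext f
      exact congrArg Q (piBar_comm h1.ne h2.ne h3 h4 h5 h6 f).symm,
    fun h1 h2 Q => by
      funext f
      exact congrArg Q (piBar_braid h1.ne h2.ne (h1.ne_of_adj h2) f)⟩

theorem compOp_of_asc {c : Fin n → ℕ} {j k : Fin n} (h : Asc c j k)
    (f : MvPolynomial (Fin n) ℤ) :
    compOp c f = compOp (swapEntries c j k) (piBar j k f) := by
  unfold compOp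
  rw [sortRec_of_asc braid_comp _ h]

theorem compOp_of_dom {c : Fin n → ℕ} (h : Dom c) (f : MvPolynomial (Fin n) ℤ) :
    compOp c f = f := by
  unfold compOp
  rw [sortRec_of_not_asc _ _ h]
  rfl

/-- For a descent `j` of `c` one has `G_c π̄_j = G_{c s_j}`. -/
theorem compOp_of_gt {c : Fin n → ℕ} {j k : Fin n} (hjk : Adj j k) (h : c k < c j)
    (f : MvPolynomial (Fin n) ℤ) :
    compOp c (piBar j k f) = compOp (swapEntries c j k) f := by
  have h1 : Asc (swapEntries c j k) j k := by
    refine ⟨hjk, ?_⟩
    rw [swapEntries_left, swapEntries_right]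
    exact h
  rw [compOp_of_asc h1, swapEntries_swapEntries]

theorem compOp_add (c : Fin n → ℕ) : ∀ f g : MvPolynomial (Fin n) ℤ,
    compOp c (f + g) = compOp c f + compOp c g := by
  obtain ⟨w, hw⟩ : ∃ w, wt c = w := ⟨_, rfl⟩
  induction w using Nat.strong_induction_on generalizing c with
  | _ w ih =>
    intro f g
    by_cases hd : ∃ a b, Asc c a b
    · obtain ⟨a, b, hab⟩ := hd
      rw [compOp_of_asc hab, compOp_of_asc hab, compOp_of_asc hab, piBar_add (Adj.ne hab.1)]
      exact ih _ (hw ▸ hab.wt_lt) _ rfl _ _
    · push Not at hd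
      rw [compOp_of_dom hd, compOp_of_dom hd, compOp_of_dom hd]

theorem compOp_mem_cone (c : Fin n → ℕ) {d : ℕ} : ∀ {f : MvPolynomial (Fin n) ℤ},
    f ∈ cone n d → compOp c f ∈ cone n d := by
  obtain ⟨w, hw⟩ : ∃ w, wt c = w := ⟨_, rfl⟩
  induction w using Nat.strong_induction_on generalizing c with
  | _ w ih =>
    intro f hf
    by_cases hd : ∃ a b, Asc c a b
    · obtain ⟨a, b, hab⟩ := hd
      rw [compOp_of_asc hab]
      exact ih _ (hw ▸ hab.wt_lt) _ rfl (piBar_mem_cone hab.1 hf)
    · push Not at hd
      rw [compOp_of_dom hd]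
      exact hf

/-- For `c_j = c_k` the operator `π̄_j` can be moved to the left through `G_c`. -/
theorem compOp_of_eq {c : Fin n → ℕ} {j k : Fin n} (hjk : Adj j k) (h : c j = c k) :
    ∃ j' k' : Fin n, Adj j' k' ∧ ∀ f, compOp c (piBar j k f) = piBar j' k' (compOp c f) := by
  obtain ⟨w, hw⟩ : ∃ w, wt c = w := ⟨_, rfl⟩
  induction w using Nat.strong_induction_on generalizing c j k with
  | _ w ih =>
    by_cases hd : ∃ a b, Asc c a b
    · obtain ⟨a, b, hab⟩ := hd
      have hlt : wt (swapEntries c a b) < w := hw ▸ hab.wt_lt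
      have nab : a ≠ b := Adj.ne hab.1
      have njk : j ≠ k := hjk.ne
      by_cases hbj : b = j
      · subst hbj
        have nak : a ≠ k := Adj.ne_of_adj hab.1 hjk
        have a1 : Asc (swapEntries c a b) b k := by
          refine ⟨hjk, ?_⟩
          rw [swapEntries_right, swapEntries_of_ne _ nak.symm njk.symm, ← h]
          exact hab.2
        have hlt2 := lt_trans a1.wt_lt hlt
        have heq2 : swapEntries (swapEntries c a b) b k a =
            swapEntries (swapEntries c a b) b k b := by
          rw [swapEntries_of_ne _ nab nak, swapEntries_left, swapEntries_left,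
            swapEntries_of_ne _ nak.symm njk.symm, h]
        obtain ⟨j', k', hjk', hf⟩ := ih _ hlt2 hab.1 heq2 rfl
        refine ⟨j', k', hjk', fun f => ?_⟩
        rw [compOp_of_asc hab, compOp_of_asc a1, compOp_of_asc hab, compOp_of_asc a1,
          ← piBar_braid nab njk nak, hf]
      · by_cases hak : a = k
        · subst hak
          have njb : j ≠ b := Adj.ne_of_adj hjk hab.1
          have a1 : Asc (swapEntries c a b) j a := by
            refine ⟨hjk, ?_⟩
            rw [swapEntries_of_ne _ njk njb, swapEntries_left, h]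
            exact hab.2
          have hlt2 := lt_trans a1.wt_lt hlt
          have heq2 : swapEntries (swapEntries c a b) j a a =
              swapEntries (swapEntries c a b) j a b := by
            rw [swapEntries_right, swapEntries_of_ne _ njk njb,
              swapEntries_of_ne _ njb.symm nab.symm, swapEntries_right, h]
          obtain ⟨j', k', hjk', hf⟩ := ih _ hlt2 hab.1 heq2 rfl
          refine ⟨j', k', hjk', fun f => ?_⟩
          rw [compOp_of_asc hab, compOp_of_asc a1, compOp_of_asc hab, compOp_of_asc a1,
            piBar_braid njk nab njb, hf]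
        · have haj : a ≠ j := by
            intro h'
            subst h'
            have : b = k := Fin.ext (by rw [← hab.1]; exact hjk)
            subst this
            exact absurd h (ne_of_lt hab.2)
          have hbk : b ≠ k := by
            intro h'
            subst h'
            apply haj
            apply Fin.ext
            have h1 := hab.1
            have h2 : (j : ℕ) + 1 = b := hjk
            omega
          have heq2 : swapEntries c a b j = swapEntries c a b k := by
            rw [swapEntries_of_ne _ haj.symm (Ne.symm hbj),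
              swapEntries_of_ne _ (Ne.symm hak) hbk.symm, h]
          obtain ⟨j', k', hjk', hf⟩ := ih _ hlt hjk heq2 rfl
          refine ⟨j', k', hjk', fun f => ?_⟩
          rw [compOp_of_asc hab, compOp_of_asc hab,
            piBar_comm nab njk haj hak hbj hbk, hf]
    · push Not at hd
      refine ⟨j, k, hjk, fun f => ?_⟩
      rw [compOp_of_dom hd, compOp_of_dom hd]

/-- `m_c π̄_j f = π̄_j (m_{c'} f) - m_{c'} f` for `c_j = 0`, `c_k ≠ 0`. -/
theorem mon_mul_piBar_of_lt {j k : Fin n} (hne : j ≠ k) {c : Fin n → ℕ} (hj : c j = 0)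
    (hk : c k ≠ 0) (f : MvPolynomial (Fin n) ℤ) :
    mon c * piBar j k f = piBar j k (mon (swapEntries c j k) * f) -
      mon (swapEntries c j k) * f := by
  have hrel := mon_rel (c := swapEntries c j k) hne
    (by rw [swapEntries_left]; exact hk) (by rw [swapEntries_right]; exact hj)
  rw [swapEntries_swapEntries] at hrel
  have h1 := piBar_spec j k f
  have h2 := piBar_spec j k (mon (swapEntries c j k) * f)
  rw [swapVars_mul, swapVars_mon, swapEntries_swapEntries] at h2
  apply mul_left_cancel₀ (X_sub_X_ne_zero hne)
  linear_combination mon c * h1 - h2 + f * hrel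

/-- `m_c π̄_j f = m_c f + π̄_j (m_{c'} f)` for `c_j ≠ 0`, `c_k = 0`. -/
theorem mon_mul_piBar_of_gt {j k : Fin n} (hne : j ≠ k) {c : Fin n → ℕ} (hj : c j ≠ 0)
    (hk : c k = 0) (f : MvPolynomial (Fin n) ℤ) :
    mon c * piBar j k f = mon c * f + piBar j k (mon (swapEntries c j k) * f) := by
  have hrel := mon_rel hne hj hk
  have h1 := piBar_spec j k f
  have h2 := piBar_spec j k (mon (swapEntries c j k) * f)
  rw [swapVars_mul, swapVars_mon, swapEntries_swapEntries] at h2
  apply mul_left_cancel₀ (X_sub_X_ne_zero hne)
  linear_combination mon c * h1 - h2 - f * hrel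

theorem mon_mul_piBar_of_eq {j k : Fin n} (hne : j ≠ k) {c : Fin n → ℕ} (h : c j = c k)
    (f : MvPolynomial (Fin n) ℤ) : mon c * piBar j k f = piBar j k (mon c * f) := by
  have hs : swapVars j k (mon c) = mon c := by
    rw [swapVars_mon, swapEntries_self_of_eq h]
  rw [piBar_mul hne hs]

/-- The trouble terms vanish. -/
theorem compOp_mon_of_lt {j k : Fin n} (hjk : Adj j k) {c : Fin n → ℕ} (hj : c j = 0)
    (hk : c k ≠ 0) (f : MvPolynomial (Fin n) ℤ) : compOp c (mon c * piBar j k f) = 0 := by
  have hasc : Asc c j k := ⟨hjk, by omega⟩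
  rw [mon_mul_piBar_of_lt hjk.ne hj hk, compOp_of_asc hasc, piBar_sub hjk.ne,
    piBar_piBar hjk.ne, sub_self]
  have h := compOp_add (swapEntries c j k) 0 0
  rw [add_zero] at h
  simpa using h

theorem main_mem (α : Fin n → ℕ) : ∀ c : Fin n → ℕ, (∀ p, c p ≤ 1) →
    compOp c (mon c * lascoux α) ∈ cone n (∑ p, α p + ∑ p, c p) := by
  obtain ⟨w, hw⟩ : ∃ w, wt α = w := ⟨_, rfl⟩
  induction w using Nat.strong_induction_on generalizing α with
  | _ w ih =>
    intro c hc
    by_cases hd : ∃ j k, Asc α j k
    · obtain ⟨j, k, hjk⟩ := hd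
      have hne : j ≠ k := Adj.ne hjk.1
      have hadj : Adj j k := hjk.1
      have hlt : wt (swapEntries α j k) < w := hw ▸ hjk.wt_lt
      have hsum := sum_swapEntries α j k
      rw [lascoux_of_asc hjk]
      rcases lt_trichotomy (c j) (c k) with h | h | h
      · rw [compOp_mon_of_lt hadj (by have := hc k; omega) (by omega)]
        exact (cone n _).zero_mem
      · rw [mon_mul_piBar_of_eq hne h]
        obtain ⟨j', k', hjk', hf⟩ := compOp_of_eq hadj h
        rw [hf, ← hsum]
        exact piBar_mem_cone hjk' (ih _ hlt _ rfl c hc)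
      · rw [mon_mul_piBar_of_gt hne (by omega) (by have := hc j; omega), compOp_add,
          compOp_of_gt hadj h]
        have h1 := ih _ hlt _ rfl c hc
        have h2 := ih _ hlt _ rfl (swapEntries c j k) (fun p => hc _)
        rw [hsum] at h1 h2
        rw [sum_swapEntries] at h2
        exact (cone n _).add_mem h1 h2
    · push Not at hd
      have hdom : Dom α := hd
      by_cases htie : ∃ j k, Adj j k ∧ α j = α k ∧ c j = 0 ∧ c k ≠ 0
      · obtain ⟨j, k, hjk, hα, hj, hk⟩ := htie
        rw [← piBar_lascoux_of_le hjk (le_of_eq hα), compOp_mon_of_lt hjk hj hk]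
        exact (cone n _).zero_mem
      · push Not at htie
        apply compOp_mem_cone
        have hmon : mon c = (∏ p, X p ^ c p) *
            ∏ p ∈ Finset.univ.filter (fun p => c p = 0), (1 - X p : MvPolynomial (Fin n) ℤ) := by
          unfold mon
          rw [Finset.prod_filter, ← Finset.prod_mul_distrib]
          refine Finset.prod_congr rfl (fun p _ => ?_)
          by_cases hp : c p = 0
          · rw [if_pos hp, if_pos hp, hp, pow_zero, one_mul]
          · have : c p = 1 := by have := hc p; omega
            rw [if_neg hp, if_neg hp, this, pow_one, mul_one]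
        have hprod : mon c * lascoux α = (∏ p, X p ^ (α p + c p)) *
            ∏ p ∈ Finset.univ.filter (fun p => c p = 0), (1 - X p : MvPolynomial (Fin n) ℤ) := by
          rw [hmon, lascoux_of_not_asc hd]
          have : (∏ p, X p ^ (α p + c p) : MvPolynomial (Fin n) ℤ) =
              (∏ p, X p ^ α p) * ∏ p, X p ^ c p := by
            rw [← Finset.prod_mul_distrib]
            exact Finset.prod_congr rfl (fun p _ => pow_add _ _ _)
          rw [this]
          ring
        rw [hprod, ← Finset.sum_add_distrib]
        have hdomle : ∀ j k, Adj j k → α k ≤ α j := by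
          intro j k hjk
          have h1 := hdom j k
          unfold Asc at h1
          push Not at h1
          exact h1 hjk
        apply base_mem
        · rintro j k ⟨hjk, hlt⟩
          change α j + c j < α k + c k at hlt
          have h1 := hdomle j k hjk
          have h2 := htie j k hjk
          have h3 := hc j
          have h4 := hc k
          by_cases h5 : α j = α k
          · have h6 := h2 h5
            by_cases h7 : c j = 0
            · have := h6 h7
              omega
            · omega
          · omega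
        · intro p q hpq hp hq
          simp only [Finset.mem_filter, Finset.mem_univ, true_and] at hp hq
          have h1 := hdomle p q hpq
          omega

end Main

/-- Every element of the cone is a graded nonnegative combination. -/
theorem exists_coeff {n d : ℕ} {f : MvPolynomial (Fin n) ℤ} (hf : f ∈ cone n d) :
    ∃ c : (Fin n → ℕ) →₀ ℤ, f = c.sum (fun γ a => a • lascoux γ) ∧
      ∀ γ, 0 ≤ (-1) ^ (d + ∑ p, γ p) * c γ := by
  induction hf using AddSubmonoid.closure_induction with
  | mem f hf =>
    obtain ⟨γ, k, hγ, rfl⟩ := hf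
    refine ⟨Finsupp.single γ ((-1) ^ k), ?_, fun δ => ?_⟩
    · rw [Finsupp.sum_single_index (by simp)]
      rw [zsmul_eq_mul]
      push_cast
      ring
    · by_cases hδ : γ = δ
      · subst hδ
        rw [Finsupp.single_eq_same, hγ, ← pow_add]
        have : d + (d + k) + k = 2 * (d + k) := by ring
        rw [this, pow_mul]
        norm_num
      · rw [Finsupp.single_eq_of_ne (Ne.symm hδ)]
        simp
  | zero => exact ⟨0, by simp, fun γ => by simp⟩
  | add f g _ _ hf hg =>
    obtain ⟨c, hc1, hc2⟩ := hf
    obtain ⟨e, he1, he2⟩ := hg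
    refine ⟨c + e, ?_, fun γ => ?_⟩
    · rw [hc1, he1, Finsupp.sum_add_index' (by simp) (by intro a b b'; rw [add_smul])]
    · rw [Finsupp.add_apply, mul_add]
      exact add_nonneg (hc2 γ) (he2 γ)

/-- For all `n`, all `α ∈ ℕ^n` and all `i ≤ n`, the product
`x_1 ⋯ x_i (1 - x_{i+1}) ⋯ (1 - x_n) 𝔏_α` is a finite combination `∑ c_γ 𝔏_γ` with
`(-1)^(|γ| - |α| - i) c_γ ≥ 0` for all `γ`. -/
theorem result (n : ℕ) (α : Fin n → ℕ) (i : ℕ) (hi : i ≤ n) :
    ∃ c : (Fin n → ℕ) →₀ ℤ,
      (∏ p : Fin n, if (p : ℕ) < i then X p else 1 - X p) * lascoux α =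
        c.sum (fun γ a => a • lascoux γ) ∧
      ∀ γ, 0 ≤ (-1) ^ ((∑ p, α p + i) + ∑ p, γ p) * c γ := by
  apply exists_coeff
  set c : Fin n → ℕ := fun p => if (p : ℕ) < i then 1 else 0 with hc
  have hdom : Dom c := by
    rintro j k ⟨hjk, hlt⟩
    simp only [hc] at hlt
    split_ifs at hlt <;> omega
  have h1 := main_mem α c (fun p => by simp only [hc]; split_ifs <;> omega)
  rw [compOp_of_dom hdom] at h1
  have h2 : ∑ p, c p = i := by
    simp only [hc]
    rw [Finset.sum_boole]
    have : (Finset.univ.filter (fun p : Fin n => (p : ℕ) < i)).card = i := by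
      rw [Fin.card_filter_val_lt, min_eq_right hi]
    exact_mod_cast this
  have h3 : mon c = ∏ p : Fin n, if (p : ℕ) < i then X p else 1 - X p := by
    unfold mon
    refine Finset.prod_congr rfl (fun p _ => ?_)
    simp only [hc]
    by_cases hp : (p : ℕ) < i
    · rw [if_pos hp, if_pos hp, if_neg one_ne_zero]
    · rw [if_neg hp, if_neg hp, if_pos rfl]
  rw [h2, h3] at h1
  exact h1

end

end Pool.Agent.Results.MP_ce9680_co.GradedNonneg
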